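import Pool.Agent.MP_33c00b_an.Weak

set_option autoImplicit false
open Filter Topology
open scoped ENNReal

namespace Pool.Agent.Results.MP_33c00b_an.WeakSeqHcNotHc

open Pool.Agent.MP_33c00b_an

/-- `S` is hypercyclic: some orbit is dense for the norm topology. -/
def Hypercyclic {B : Type} [NormedAddCommGroup B] [NormedSpace ℂ B] (S : B →L[ℂ] B) : Prop :=
  ∃ x : B, Dense (Set.range fun n : ℕ => (S ^ n) x)

/-- `S` is weakly 1-sequentially hypercyclic: there is `x` such that every `y` is the weak limit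
of a sequence `S ^ (n k) x` taken from the orbit of `x`. -/
def WeaklyOneSeqHypercyclic {B : Type} [NormedAddCommGroup B] [NormedSpace ℂ B]
    (S : B →L[ℂ] B) : Prop :=
  ∃ x : B, ∀ y : B, ∃ n : ℕ → ℕ, ∀ φ : B →L[ℂ] ℂ,
    Tendsto (fun k : ℕ => φ ((S ^ n k) x)) atTop (𝓝 (φ y))

/-- There are a complex Hilbert space `B` and a bounded operator on `B` which is weakly
1-sequentially hypercyclic but not hypercyclic. (The space used is `ℓ²(ℕ × ℕ)`.) -/
theorem result :
    ∃ (B : Type) (_ : NormedAddCommGroup B) (_ : InnerProductSpace ℂ B) (_ : CompleteSpace B)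
      (S : B →L[ℂ] B), WeaklyOneSeqHypercyclic S ∧ ¬ Hypercyclic S := by
  obtain ⟨M, u, hM, hu, hs, hd⟩ := exists_data
  refine ⟨E, inferInstance, inferInstance, inferInstance, T u, ⟨xv M, ?_⟩, ?_⟩
  · exact weakly_hc M hM u hu hs hd
  · rintro ⟨x, hx⟩
    exact not_hypercyclic u hu hs x hx

end Pool.Agent.Results.MP_33c00b_an.WeakSeqHcNotHc
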